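import Pool.Agent.U81.AV.Main
import Pool.Agent.U81.AV.Irr

/-!
# The Beilinson-Bloch conjecture in codimension one for abelian varieties of all dimensions 2 ^ e over imaginary
# quadratic fields

`K` is an imaginary quadratic field of class number one, `E : y² = x³ + a x + b` is an elliptic curve over `K` (in
general it is not defined over `ℚ` and not a base change), and `f` is the Bianchi newform of `E`.  We suppose that
`E(K)[2] = 0`, that the `2`-Selmer group of `E/K` is trivial, and that the central value of `f` is odd: the value `Φ(0)`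
of the primitive `Φ` of the harmonic differential of `f` at the cusp `0` is not in `2 w Λ`, where `Λ ≅ ℤ` is the group of
the values of `Φ` at the cusps `x/m`, `m` prime to the level, and `w = #{u ∈ 𝓞 : u⁴ = 1}`.

An odd prime number `q` is admissible of level `k` if it splits in `K`, `E` has good reduction and `x³ + a x + b` has no
root modulo the two places above `q`, `2 ^ k ∣ q - 1`, and the norms of the places `v ∣ 2(4a³ + 27b²)` of `K` are
`2 ^ k`-th powers modulo `q`.  For such a `q` let `K(q, k)` be the subfield of degree `2 ^ k` over `K` of the field of the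
`q`-th roots of unity, and for a set `S` of prime numbers and a function `k` let `T(S, k)` be the composite of the fields
`K(q, k(q))`, `q ∈ S`.

For a finite Galois extension `F/K` and an integral representation `ρ : Gal(F/K) → GL_m(ℤ)` let `A_ρ` be the abelian
variety over `K` of dimension `m` which is the form of `E ^ m` given by `ρ` (the tensor product of `E` and `ρ`): over an
algebraic closure it is `E ^ m`, and `s` in the Galois group acts on its points as `ρ(s) s`.  So
`A_ρ(K) = {P ∈ E(F) ^ m : ρ(s) s(P) = P for all s}`, the Tate modules are `V_l(A_ρ) = V_l(E) ⊗ ρ`, and the dual abelian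
variety is `A_ρ*` with `ρ*(s) = ρ(s⁻¹)ᵀ`.  Hence `CH¹_hom(A_ρ) = A_ρ*(K)`, and the Euler factor of `L(H¹(A_ρ), s)` at `v` is
the inverse of `det(1 - a_v M N(v)^(-s) + M² N(v)^(1 - 2s))`, where `M` is the mean of the matrices `ρ(s)` over the
Frobenius elements `s` at `v`: it is the Frobenius on the invariants of the inertia group, and zero on the complement.

Theorem.  (1) Let each `q ∈ S` be admissible of level `k(q)`.  For ALL number fields `K ⊆ F ⊂ T(S, k)`, all `m` and all
`ρ : Gal(F/K) → GL_m(ℤ)` the function `L(H¹(A_ρ), s)` is entire, and the rank equality of the conjecture holds in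
codimension one for `X = A_ρ`, with both sides zero: `ord_{s=1} L(H¹(A_ρ), s) = rank CH¹_hom(A_ρ) = 0`; moreover
`A_ρ(K)` and `CH¹_hom(A_ρ) = A_ρ*(K)` are finite of odd order.

(2) If for all `j` there are infinitely many `q ∈ S` with `k(q) ≥ j`, then for each `e ≥ 0` there are infinitely many
`F ⊂ T(S, k)` with a faithful `ρ : Gal(F/K) → GL_m(ℤ)`, `m = 2 ^ e`, such that the characteristic polynomial of some
`ρ(s)` is irreducible.  (3) There are such `S` and `k`.

In (2) `ρ` is irreducible over `ℚ`, so that `A_ρ` is simple over `K` if `E` has no complex multiplication; `F` is the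
smallest field over which it becomes isogenous to a power of `E`, as `ρ` is faithful.  So the theorem gives, for each
such `E` and each `e`, infinitely many simple abelian varieties over `K` of dimension `2 ^ e` for which the conjecture of
Birch and Swinnerton-Dyer (rank part) holds.  For the permutation representation `ρ` of `Gal(F/K)` the variety
`A_ρ` is the restriction of scalars from `F` to `K` of `E`, and its `L`-function is `L(E/F, s)`.  As both sides depend only on
the Picard variety up to isogeny, the rank equality follows for all smooth projective `X` over `K` whose Picard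
variety is isogenous to some `A_ρ`.

The proof.  As `F/K` is abelian, `ρ` is over `ℂ` a sum of characters `χ_i`, and the Euler product is the product of those
of `L(f ⊗ χ_i, s)`, also at the ramified places (`Pool.Agent.U81.AV.fac_eq`); the characters of `Gal(F/K)` are identified
with characters of `2`-power order modulo products of admissible places (`Pool.Agent.U81.AT`, see
`MP_9ab903_nt.AbelianTwoTowers`, where `ρ` is the regular representation).  Their central values are not zero modulo the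
primes above `2`; `E(F)` is finite of odd order.  For the last two points we use the starting library of helper55
(`Pool.Agent.K4H55.CX.chr_unit`, `Pool.Agent.K4H55.CX.fin_up`).
-/

set_option autoImplicit false

open NumberField IsDedekindDomain Matrix WeierstrassCurve Filter Topology Pointwise
open scoped TensorProduct

namespace Pool.Agent.Results.MP_b8021b_nt.AbelianVarietiesInTowers

/-- `K` is an imaginary quadratic field, `σ` is one of its two embeddings in `ℂ`, and `δ` generates the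
different of `K`: an `x ∈ K` is in `𝓞` if and only if `Tr(x y / δ) ∈ ℤ` for all `y ∈ 𝓞`. -/
structure IsFieldData (K : Type) [Field K] [NumberField K] (σ : K →+* ℂ) (δ : K) : Prop where
  quadratic : Module.finrank ℚ K = 2
  imaginary : ∃ x, (starRingEnd ℂ) (σ x) ≠ σ x
  different : ∀ x : K, (∃ a : 𝓞 K, (a : K) = x) ↔
    ∀ y : 𝓞 K, ∃ m : ℤ, Algebra.trace ℚ K (x * y / δ) = m

/-- `h(y) = ∫_0^∞ exp(-1/v - y v) dv = 2 y^(-1/2) K₁(2 √y)`, with the Bessel function `K₁`. -/
noncomputable def bessel (y : ℝ) : ℝ := ∫ v in Set.Ioi (0 : ℝ), Real.exp (-(1 / v) - y * v)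

/-- The additive character `e(z) = exp(2πi (z/δ + conj (z/δ)))` of `ℂ`, trivial on `𝓞`. -/
noncomputable def addChar (δ z : ℂ) : ℂ :=
  Complex.exp (2 * Real.pi * Complex.I * (z / δ + (starRingEnd ℂ) (z / δ)))

/-- The denominator `|c z + d|² + |c|² t²` of the action of the matrix `(a, b; c, d)` on the hyperbolic
space `{(z, t) : z ∈ ℂ, t > 0}`. -/
noncomputable def den (c d z : ℂ) (t : ℝ) : ℝ := ‖c * z + d‖ ^ 2 + ‖c‖ ^ 2 * t ^ 2

/-- The first coordinate `((a z + b) conj (c z + d) + a conj(c) t²) / (|c z + d|² + |c|² t²)` of the image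
of `(z, t)` under the matrix `(a, b; c, d)`. -/
noncomputable def actZ (a b c d z : ℂ) (t : ℝ) : ℂ :=
  ((a * z + b) * (starRingEnd ℂ) (c * z + d) + a * (starRingEnd ℂ) c * (t : ℂ) ^ 2) /
    (den c d z t : ℂ)

/-- The second coordinate, for a matrix of determinant one; in general it is `|ad - bc|` times this. -/
noncomputable def actT (c d z : ℂ) (t : ℝ) : ℝ := t / den c d z t

section field
variable {K : Type} [Field K] [NumberField K]

/-- The function `Φ(z, t) = ∑_{x ∈ 𝓞} c((x)) t² h(N(x) (2πt/|δ|)²) e(x z)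
  = (|δ|/π) ∑_{x ≠ 0} (c((x))/|x|) t K₁(4π|x|t/|δ|) e(x z)` on the hyperbolic space, with the coefficients `c`.
Up to a constant factor it is the primitive, zero at the cusp `∞`, of the harmonic differential of the
form of weight two with the Fourier coefficients `c`: its derivative by `t` is
`-4 ∑_{x ≠ 0} c((x)) t K₀(4π|x|t/|δ|) e(x z)`. -/
noncomputable def primitive (σ : K →+* ℂ) (δ : K) (c : Ideal (𝓞 K) → ℂ) (z : ℂ) (t : ℝ) : ℂ :=
  ∑' x : 𝓞 K, c (Ideal.span {x}) * ((t ^ 2 * bessel (Ideal.absNorm (Ideal.span {x}) *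
    (2 * Real.pi * t / ‖σ δ‖) ^ 2) : ℝ) : ℂ) * addChar (σ δ) (σ x * z)

/-- The group `Λ` generated by the values of the primitive `Φ` at the cusps `x/m`, `m ≠ 0` prime to the level (that is,
by the limits of `Φ(x/m, t)` for `t → 0`). -/
def Lam (σ : K →+* ℂ) (δ : K) (n : 𝓞 K) (c : Ideal (𝓞 K) → ℂ) : AddSubgroup ℂ :=
  AddSubgroup.closure {z | ∃ x m : 𝓞 K, m ≠ 0 ∧ IsCoprime m n ∧
    Tendsto (fun t => primitive σ δ c (σ x / σ m) t) (𝓝[>] 0) (𝓝 z)}

/-- The numbers `c(I)` are the Hecke eigenvalues of a Bianchi newform `f` of weight two, level `(n)` and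
trivial character over `K`, with rational eigenvalues: they satisfy `c(𝓞) = 1`, the (trivial) bound `c(I) = O(N(I))`
and the Hecke relations `c(v I) = c(v) c(I)` for `v ∤ I`, `c(v² I) = c(v) c(v I) - N(v) c(I)` for the primes `v ∤ n`, and
`c(v I) = c(v) c(I)` for `v ∣ n`; the differential `dΦ` of the function `Φ` with the coefficients `c` is
invariant under `Γ₀(n)`, that is, `Φ(γ P) - Φ(P)` is a constant for every `γ ∈ Γ₀(n)`; `dΦ` is an
eigenform, with the eigenvalue `±1`, of the Fricke involution `W = (0, -1; n, 0)`; and the group `Λ` of the values of `Φ` at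
cusps is cyclic (this is so for rational eigenvalues, by multiplicity one and the theorem of Manin, Drinfeld and
Kurčanov: the quotient of `H₁(Γ₀(n), cusps; ℤ)` which belongs to `f` has rank one). -/
structure IsNewform (σ : K →+* ℂ) (δ : K) (n : 𝓞 K) (c : Ideal (𝓞 K) → ℂ) : Prop where
  level : n ≠ 0
  zero : c ⊥ = 0
  one : c ⊤ = 1
  bound : ∃ C : ℝ, ∀ I, ‖c I‖ ≤ C * Ideal.absNorm I
  good : ∀ v : HeightOneSpectrum (𝓞 K), n ∉ v.asIdeal → ∀ I,
    (¬ v.asIdeal ∣ I → c (v.asIdeal * I) = c v.asIdeal * c I) ∧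
    c (v.asIdeal * (v.asIdeal * I)) = c v.asIdeal * c (v.asIdeal * I) -
      Ideal.absNorm v.asIdeal * c I
  bad : ∀ v : HeightOneSpectrum (𝓞 K), n ∈ v.asIdeal → ∀ I,
    c (v.asIdeal * I) = c v.asIdeal * c I
  invariant : ∃ κ : SpecialLinearGroup (Fin 2) (𝓞 K) → ℂ,
    ∀ γ : SpecialLinearGroup (Fin 2) (𝓞 K), n ∣ γ.1 1 0 → ∀ (z : ℂ) (t : ℝ), 0 < t →
      primitive σ δ c (actZ (σ (γ.1 0 0)) (σ (γ.1 0 1)) (σ (γ.1 1 0)) (σ (γ.1 1 1)) z t)
        (actT (σ (γ.1 1 0)) (σ (γ.1 1 1)) z t) = primitive σ δ c z t + κ γ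
  fricke : ∃ w κ : ℂ, w * w = 1 ∧ ∀ (z : ℂ) (t : ℝ), 0 < t →
    primitive σ δ c (actZ 0 (-1) (σ n) 0 z t) (‖σ n‖ * actT (σ n) 0 z t) =
      -w * primitive σ δ c z t + κ
  cyclic : ∃ ω ∈ Lam σ δ n c, ∀ l ∈ Lam σ δ n c, ∃ j : ℤ, l = j * ω

/-- The number `w` of the `u ∈ 𝓞` with `u⁴ = 1`: it is `4` for `K = ℚ(i)` and `2` otherwise. -/
noncomputable def fourth (K : Type) [Field K] : ℕ := Nat.card {u : 𝓞 K // u ^ 4 = 1}

/-- The central value is odd: `Φ(0)`, the limit of `Φ(0, t)` for `t → 0`, is not in `2 w Λ`. -/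
def OddCentralValue (σ : K →+* ℂ) (δ : K) (n : 𝓞 K) (c : Ideal (𝓞 K) → ℂ) : Prop :=
  ∃ z₀ : ℂ, Tendsto (fun t => primitive σ δ c 0 t) (𝓝[>] 0) (𝓝 z₀) ∧
    ∀ y ∈ Lam σ δ n c, z₀ ≠ 2 * fourth K * y

/-- The number of the affine points of `y² = x³ + a x + b` over the residue field of `v`. -/
noncomputable def points (a b : 𝓞 K) (v : HeightOneSpectrum (𝓞 K)) : ℕ :=
  Nat.card {x : (𝓞 K ⧸ v.asIdeal) × (𝓞 K ⧸ v.asIdeal) //
    x.2 ^ 2 = x.1 ^ 3 + (Ideal.Quotient.mk v.asIdeal a) * x.1 + (Ideal.Quotient.mk v.asIdeal b)}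

/-- `f` is the newform of `E : y² = x³ + a x + b`: for `v ∤ 2(4a³ + 27b²)` (so that `E` has good reduction at `v`)
the level is prime to `v` and `c(v) = N(v) + 1 - #E(𝓞/v)`. -/
def IsNewformOf (a b n : 𝓞 K) (c : Ideal (𝓞 K) → ℂ) : Prop :=
  ∀ v : HeightOneSpectrum (𝓞 K), 2 * (4 * a ^ 3 + 27 * b ^ 2) ∉ v.asIdeal →
    n ∉ v.asIdeal ∧ c v.asIdeal = (Ideal.absNorm v.asIdeal : ℂ) - points a b v

section selmer
variable {L : Type} [Field L] [NumberField L] [Algebra K L]

/-- `L = K(θ)` is the cubic field of `E`: `θ³ + a θ + b = 0`, and every element of `L` is `u + v θ + w θ²` for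
unique `u, v, w ∈ K`.  So `x³ + a x + b` is irreducible over `K`, that is, `E(K)[2] = 0`. -/
structure IsCubicField (a b : 𝓞 K) (θ : L) : Prop where
  root : θ ^ 3 + algebraMap K L a * θ + algebraMap K L b = 0
  basis : ∀ β : L, ∃! t : K × K × K,
    β = algebraMap K L t.1 + algebraMap K L t.2.1 * θ + algebraMap K L t.2.2 * θ ^ 2

/-- The class of `α` in `(K_v ⊗ L)^×` modulo squares is in the group generated by the images of the points
`(x, y)`, `y ≠ 0`, of `E(K_v)` under the Kummer map `(x, y) ↦ x - θ`.  (This group is the image of `E(K_v)/2E(K_v)`, as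
the map is a homomorphism and all classes contain points with `y ≠ 0`.) -/
def LocalCondition (a b : 𝓞 K) (θ : L) (v : HeightOneSpectrum (𝓞 K)) (α : L) : Prop :=
  ∃ s : List (v.adicCompletion K),
    (∀ x ∈ s, ∃ y : v.adicCompletion K, y ≠ 0 ∧
      y ^ 2 = x ^ 3 + algebraMap K (v.adicCompletion K) a * x +
        algebraMap K (v.adicCompletion K) b) ∧
    IsSquare (((1 : v.adicCompletion K) ⊗ₜ[K] α) *
      (s.map fun x => x ⊗ₜ[K] (1 : L) - 1 ⊗ₜ[K] θ).prod)

/-- The `2`-Selmer group of `E/K` is trivial.  As `E(K)[2] = 0` and `K` has no real places, it is the group of the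
classes of `α ∈ L^×` modulo squares such that the norm of `α` is a square, `w(α)` is even for all places
`w ∤ 2(4a³ + 27b²)` of `L`, and `α` satisfies the local conditions at the places `v ∣ 2(4a³ + 27b²)` of `K`. -/
def TrivialSelmer (a b : 𝓞 K) (θ : L) : Prop :=
  ∀ α : L, α ≠ 0 → IsSquare (Algebra.norm K α) →
    (∀ w : HeightOneSpectrum (𝓞 L), algebraMap (𝓞 K) (𝓞 L) (2 * (4 * a ^ 3 + 27 * b ^ 2)) ∉
      w.asIdeal → IsSquare (w.valuation L α)) →
    (∀ v : HeightOneSpectrum (𝓞 K), 2 * (4 * a ^ 3 + 27 * b ^ 2) ∈ v.asIdeal →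
      LocalCondition a b θ v α) → IsSquare α

end selmer

/-- The admissible primes of level `k`: `q` is an odd prime number with `2 ^ k ∣ q - 1`, which splits in `K` (the places
`v` above `q` have the norm `q`, and `q ∉ v²`), `v ∤ 2(4a³ + 27b²)` and `x³ + a x + b` has no root modulo `v` for the
places `v` above `q`, and the norms of the places of `K` which divide `2(4a³ + 27b²)` are `2 ^ k`-th powers modulo `q`. -/
structure IsAdmissible (a b : 𝓞 K) (k q : ℕ) : Prop where
  prime : q.Prime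
  odd : q ≠ 2
  level : 2 ^ k ∣ q - 1
  degree : ∀ v : HeightOneSpectrum (𝓞 K), (q : 𝓞 K) ∈ v.asIdeal → Ideal.absNorm v.asIdeal = q
  unramified : ∀ v : HeightOneSpectrum (𝓞 K), (q : 𝓞 K) ∈ v.asIdeal → (q : 𝓞 K) ∉ v.asIdeal ^ 2
  good : ∀ v : HeightOneSpectrum (𝓞 K), (q : 𝓞 K) ∈ v.asIdeal →
    2 * (4 * a ^ 3 + 27 * b ^ 2) ∉ v.asIdeal
  root : ∀ v : HeightOneSpectrum (𝓞 K), (q : 𝓞 K) ∈ v.asIdeal →
    ∀ x : 𝓞 K, x ^ 3 + a * x + b ∉ v.asIdeal
  bad : ∀ v : HeightOneSpectrum (𝓞 K), 2 * (4 * a ^ 3 + 27 * b ^ 2) ∈ v.asIdeal →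
    ∃ y : ZMod q, y ^ 2 ^ k = (Ideal.absNorm v.asIdeal : ℕ)

variable (K) in
/-- The field `K(q, k)`: the elements of the algebraic closure of `K` which are fixed by all the automorphisms over
`K` whose effect on the `q`-th roots of unity is `z ↦ z ^ (m ^ (2 ^ k))`.  (For an admissible `q` of level `k` it is the
subfield of degree `2 ^ k` over `K` of the field of the `q`-th roots of unity over `K`.) -/
noncomputable def layer (q k : ℕ) : IntermediateField K (AlgebraicClosure K) where
  carrier := {x | ∀ s : AlgebraicClosure K ≃ₐ[K] AlgebraicClosure K,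
    (∀ z : AlgebraicClosure K, z ^ q = 1 → ∃ m : ℕ, s z = z ^ m ^ 2 ^ k) → s x = x}
  mul_mem' := fun {x y} hx hy s hs => by rw [map_mul, hx s hs, hy s hs]
  one_mem' := fun s _ => map_one s
  add_mem' := fun {x y} hx hy s hs => by rw [map_add, hx s hs, hy s hs]
  zero_mem' := fun s _ => map_zero s
  algebraMap_mem' := fun x s _ => s.commutes x
  inv_mem' := fun x hx s hs => by rw [map_inv₀, hx s hs]

variable (K) in
/-- The tower `T(S, k)`: the composite of the fields `K(q, k(q))`, `q ∈ S`. -/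
noncomputable def tower (S : Set ℕ) (k : ℕ → ℕ) : IntermediateField K (AlgebraicClosure K) :=
  ⨆ q : S, layer K q (k q)

section lfunction

variable (F : Type) [Field F] [NumberField F] [Algebra K F] {m : ℕ}

/-- The Frobenius elements of `F/K` at the place `v` of `K`: for some place `u` of `F` above `v`, `s(x) ≡ x ^ N(v)` modulo
`u` for all integers `x` of `F`.  (For abelian `F/K` they are one coset of the inertia group of `v`.) -/
def frobenius (v : HeightOneSpectrum (𝓞 K)) : Set (F ≃ₐ[K] F) :=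
  {s | ∃ u : HeightOneSpectrum (𝓞 F), u.asIdeal.comap (algebraMap (𝓞 K) (𝓞 F)) = v.asIdeal ∧
    ∀ x : 𝓞 F, s • x - x ^ Ideal.absNorm v.asIdeal ∈ u.asIdeal}

variable {F}

/-- The mean `M` of the matrices `ρ(s)` over the Frobenius elements `s` at `v`.  (For abelian `F/K` it is the action of
the Frobenius elements on the subspace of the invariants of the inertia group, and zero on its complement.) -/
noncomputable def mean (ρ : (F ≃ₐ[K] F) →* Matrix (Fin m) (Fin m) ℤ) (v : HeightOneSpectrum (𝓞 K)) :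
    Matrix (Fin m) (Fin m) ℂ :=
  (Nat.card (frobenius F v) : ℂ)⁻¹ • ∑ᶠ s : frobenius F v, (ρ s).map (Int.cast : ℤ → ℂ)

open Classical in
/-- The Euler factor of `L(H¹(A_ρ), s)` at the place `v` of `K`: the inverse of
`det(1 - c(v) N(v)^(-s) M + N(v)^(1 - 2s) M²)`, where the last term is missing if `v` divides the level `n`. -/
noncomputable def eulerFactor (n : 𝓞 K) (c : Ideal (𝓞 K) → ℂ)
    (ρ : (F ≃ₐ[K] F) →* Matrix (Fin m) (Fin m) ℤ) (s : ℂ) (v : HeightOneSpectrum (𝓞 K)) : ℂ :=
  (Matrix.det (1 - (c v.asIdeal * (Ideal.absNorm v.asIdeal : ℂ) ^ (-s)) • mean ρ v +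
    (if n ∈ v.asIdeal then 0 else (Ideal.absNorm v.asIdeal : ℂ) ^ (1 - 2 * s)) •
      mean ρ v ^ 2))⁻¹

/-- `G` is the continuation of `L(H¹(A_ρ), s)`: it is an entire function, and for `Re s > 2` it is the product of the
Euler factors at all the finite places of `K`. -/
def IsLFunction (n : 𝓞 K) (c : Ideal (𝓞 K) → ℂ) (ρ : (F ≃ₐ[K] F) →* Matrix (Fin m) (Fin m) ℤ)
    (G : ℂ → ℂ) : Prop :=
  Differentiable ℂ G ∧ ∀ s : ℂ, 2 < s.re → HasProd (eulerFactor n c ρ s) (G s)

end lfunction

section forms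

/-- The group `E(F)` of the points of `E : y² = x³ + a x + b` over the extension `F` of `K`. -/
abbrev Pt (a b : 𝓞 K) (F : Type) [Field F] [Algebra K F] : Type :=
  ((⟨0, 0, 0, (a : K), (b : K)⟩ : WeierstrassCurve K).baseChange F).toAffine.Point

variable {F : Type} [Field F] [Algebra K F] {m : ℕ}

open Classical in
/-- The map `P ↦ g s(P)` of `E(F) ^ m` for an automorphism `s` of `F` and an integral matrix `g`: first `s` is applied to the
coordinates of the points, then the matrix. -/
noncomputable def move (a b : 𝓞 K) (g : Matrix (Fin m) (Fin m) ℤ) (s : F ≃ₐ[K] F) :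
    (Fin m → Pt a b F) →+ (Fin m → Pt a b F) where
  toFun P := fun i => ∑ j, g i j • WeierstrassCurve.Affine.Point.map
    (W' := (⟨0, 0, 0, (a : K), (b : K)⟩ : WeierstrassCurve K).toAffine) (s : F →ₐ[K] F) (P j)
  map_zero' := by
    funext i
    simp
  map_add' P Q := by
    funext i
    simp [Finset.sum_add_distrib]

open Classical in
/-- The group `A_ρ(K)`: the `P ∈ E(F) ^ m` with `ρ(s) s(P) = P` for all `s` in the Galois group of `F/K`. -/
noncomputable def formPoints (a b : 𝓞 K) (ρ : (F ≃ₐ[K] F) →* Matrix (Fin m) (Fin m) ℤ) :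
    AddSubgroup (Fin m → Pt a b F) where
  carrier := {P | ∀ s, move a b (ρ s) s P = P}
  zero_mem' := fun s => map_zero _
  add_mem' := fun {P Q} hP hQ s => by rw [map_add, hP s, hQ s]
  neg_mem' := fun {P} hP s => by rw [map_neg, hP s]

/-- The contragredient representation `ρ*(s) = ρ(s⁻¹)ᵀ`; `A_ρ*` is the dual abelian variety of `A_ρ`. -/
def dual (ρ : (F ≃ₐ[K] F) →* Matrix (Fin m) (Fin m) ℤ) : (F ≃ₐ[K] F) →* Matrix (Fin m) (Fin m) ℤ where
  toFun s := (ρ s⁻¹)ᵀ
  map_one' := by rw [inv_one, map_one, Matrix.transpose_one]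
  map_mul' s t := by rw [_root_.mul_inv_rev, map_mul, Matrix.transpose_mul]

open Classical in
/-- The rank equality in codimension one for `A_ρ`, with both sides zero, where `G` is the continuation of
`L(H¹(A_ρ), s)`: the order of vanishing of `G` at `s = 1` is the rank of `CH¹_hom(A_ρ) = A_ρ*(K)` and zero; this group and
`A_ρ(K)` are finite of odd order. -/
structure Conclusion (a b : 𝓞 K) (ρ : (F ≃ₐ[K] F) →* Matrix (Fin m) (Fin m) ℤ) (G : ℂ → ℂ) :
    Prop where
  rank : analyticOrderAt G 1 = ((Module.finrank ℤ (formPoints a b (dual ρ)) : ℕ) : ℕ∞)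
  zero : analyticOrderAt G 1 = 0
  finite : Finite (formPoints a b (dual ρ)) ∧ Finite (formPoints a b ρ)
  odd : Odd (Nat.card (formPoints a b (dual ρ))) ∧ Odd (Nat.card (formPoints a b ρ))

open Classical in
lemma form_finite {a b : 𝓞 K} (h : Finite (Pt a b F)) (h' : Odd (Nat.card (Pt a b F)))
    (ρ : (F ≃ₐ[K] F) →* Matrix (Fin m) (Fin m) ℤ) :
    Finite (formPoints a b ρ) ∧ Odd (Nat.card (formPoints a b ρ)) := by
  have h1 : Finite (Fin m → Pt a b F) := Pi.finite
  have h2 : Nat.card (formPoints a b ρ) ∣ Nat.card (Fin m → Pt a b F) :=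
    AddSubgroup.card_addSubgroup_dvd_card _
  refine ⟨inferInstance, Odd.of_dvd_nat ?_ h2⟩
  rw [Nat.card_fun, Nat.card_eq_fintype_card (α := Fin m), Fintype.card_fin]
  exact h'.pow

open Classical in
lemma conclusion_of {a b : 𝓞 K} {G : ℂ → ℂ} (hG : G 1 ≠ 0) (h : Finite (Pt a b F))
    (h' : Odd (Nat.card (Pt a b F))) (ρ : (F ≃ₐ[K] F) →* Matrix (Fin m) (Fin m) ℤ) :
    Conclusion a b ρ G := by
  obtain ⟨h1, h2⟩ := form_finite h h' ρ
  obtain ⟨h3, h4⟩ := form_finite h h' (dual ρ)
  have hrk : Module.finrank ℤ (formPoints a b (dual ρ)) = 0 := by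
    apply Module.IsTorsion.finrank_eq_zero
    intro P
    refine ⟨⟨(Nat.card (formPoints a b (dual ρ)) : ℤ), ?_⟩, ?_⟩
    · rw [mem_nonZeroDivisors_iff_ne_zero]
      exact_mod_cast Nat.card_pos.ne'
    · show (Nat.card (formPoints a b (dual ρ)) : ℤ) • P = 0
      rw [natCast_zsmul]
      exact card_nsmul_eq_zero'
  have hord : analyticOrderAt G 1 = 0 := analyticOrderAt_eq_zero.2 (Or.inr hG)
  exact ⟨by rw [hord, hrk]; rfl, hord, ⟨h3, h1⟩, h4, h2⟩

end forms

end field

/-- **Theorem.** Let `K` be an imaginary quadratic field of class number one, `E : y² = x³ + a x + b` an elliptic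
curve over `K` with the Bianchi newform `f` of level `(n)` and eigenvalues `c`.  Suppose that `E(K)[2] = 0`, the
`2`-Selmer group of `E/K` is trivial and the central value of `f` is odd.

(1) Let `S` be a set of prime numbers and `k` a function such that each `q ∈ S` is admissible of level `k(q)`.
(a) All number fields `K ⊆ F ⊆ T(S, k)` are abelian over `K`, and for all `m` and all integral representations `ρ` of rank
`m` of `Gal(F/K)`, the function `L(H¹(A_ρ), s)` is continued to an entire function, its order at `s = 1` is the rank of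
`CH¹_hom(A_ρ) = A_ρ*(K)` and zero, and `A_ρ(K)`, `A_ρ*(K)` are finite of odd order.
(b) If for all `j` there are infinitely many `q ∈ S` with `k(q) ≥ j`, then for every `e` there are infinitely many
number fields `K ⊂ F ⊂ T(S, k)` with a faithful integral representation `ρ` of rank `2 ^ e` of `Gal(F/K)` such that the
characteristic polynomial of some `ρ(s)` is irreducible.

(2) There are `S` and `k` as in (1) with the property in (b). -/
theorem result (K : Type) [Field K] [NumberField K] [IsPrincipalIdealRing (𝓞 K)] (σ : K →+* ℂ)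
    (δ : K) (hK : IsFieldData K σ δ) (a b n : 𝓞 K) (hΔ : 4 * a ^ 3 + 27 * b ^ 2 ≠ 0)
    (c : Ideal (𝓞 K) → ℂ) (hf : IsNewform σ δ n c) (hE : IsNewformOf a b n c)
    (hodd : OddCentralValue σ δ n c)
    (L : Type) [Field L] [NumberField L] [Algebra K L] (θ : L)
    (hθ : IsCubicField a b θ) (hS : TrivialSelmer a b θ) :
    (∀ (S : Set ℕ) (k : ℕ → ℕ), (∀ q ∈ S, IsAdmissible a b (k q) q) →
      (∀ (F : IntermediateField K (AlgebraicClosure K)) [NumberField F], F ≤ tower K S k →
        (IsGalois K F ∧ ∀ s t : F ≃ₐ[K] F, s * t = t * s) ∧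
        ∀ (m : ℕ) (ρ : (F ≃ₐ[K] F) →* Matrix (Fin m) (Fin m) ℤ),
          ∃ G : ℂ → ℂ, IsLFunction n c ρ G ∧ Conclusion a b ρ G) ∧
      ((∀ j, {q | q ∈ S ∧ j ≤ k q}.Infinite) → ∀ e : ℕ,
        {F : IntermediateField K (AlgebraicClosure K) | F ≤ tower K S k ∧ NumberField F ∧
          ∃ ρ : (F ≃ₐ[K] F) →* Matrix (Fin (2 ^ e)) (Fin (2 ^ e)) ℤ, Function.Injective ρ ∧
            ∃ s, Irreducible (ρ s).charpoly}.Infinite)) ∧
    ∃ (S : Set ℕ) (k : ℕ → ℕ), (∀ q ∈ S, IsAdmissible a b (k q) q) ∧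
      ∀ j, {q | q ∈ S ∧ j ≤ k q}.Infinite := by
  classical
  have h : K4H55.BI.IQ K σ δ := ⟨hK.quadratic, hK.imaginary, inferInstance, hK.different⟩
  have hf' : K4H55.BI.BF σ δ n c := ⟨hf.level, hf.zero, hf.one, hf.bound, hf.good, hf.bad,
    hf.invariant, hf.fricke⟩
  have hcub : K4H55.BD.Cub K θ := by
    refine ⟨fun p q r h0 => ?_, fun β => ?_⟩
    · obtain ⟨t, ht, hu⟩ := hθ.basis 0
      have h1 := hu (p, q, r) h0.symm
      have h2 := hu (0, 0, 0) (by simp)
      have h3 := h1.trans h2.symm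
      simp only [Prod.mk.injEq] at h3
      exact h3
    · obtain ⟨t, ht, -⟩ := hθ.basis β
      exact ⟨t.1, t.2.1, t.2.2, ht⟩
  obtain ⟨ω, hω', hω⟩ := hf.cyclic
  obtain ⟨z, hz, hzo⟩ := hodd
  have hE' : ∀ v : HeightOneSpectrum (𝓞 K), 2 * (4 * a ^ 3 + 27 * b ^ 2) ∉ v.asIdeal →
      n ∉ v.asIdeal ∧ c v.asIdeal = (Ideal.absNorm v.asIdeal : ℂ) - K4H55.BD.pv a b v :=
    fun v hv => hE v hv
  have hiff : ∀ k q : ℕ, IsAdmissible a b k q ↔ q ∈ K4H55.BD.QE h a b n ∧ U81.AT.Bd a b k q := by
    intro k q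
    rw [U81.MQ.qe_iff h hE']
    constructor
    · intro h1
      exact ⟨⟨h1.prime, h1.odd, fun v hv => ⟨h1.degree v hv, h1.unramified v hv, h1.good v hv,
        h1.root v hv⟩⟩, h1.level, h1.bad⟩
    · rintro ⟨⟨h1, h2, h3⟩, h4, h5⟩
      exact ⟨h1, h2, h4, fun v hv => (h3 v hv).1, fun v hv => (h3 v hv).2.1,
        fun v hv => (h3 v hv).2.2.1, fun v hv => (h3 v hv).2.2.2, h5⟩
  refine ⟨fun S k hSk => ⟨fun F _ hF => ?_, fun hinf e => ?_⟩, ?_⟩
  · obtain ⟨⟨l1, l2, -, -, -⟩, -, -, -, -, -, -, -, -, -, ⟨h1, h1'⟩, -, -⟩ :=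
      U81.AT.main h hΔ hf' hE' hz hω hω' hzo hcub hθ.root hS
        (fun q hq => ((hiff _ _).1 (hSk q hq)).1) (fun q hq => (hSk q hq).bad) F hF
    refine ⟨⟨l1, l2⟩, fun m ρ => ?_⟩
    obtain ⟨G, g1, g2, g3⟩ := U81.AV.lfun h hf' hE' hz hω hω' hzo
        (fun q hq => ((hiff _ _).1 (hSk q hq)).1) (fun q hq => (hSk q hq).bad) F hF ρ
    have e1 : (⟨0, 0, 0, (a : K), (b : K)⟩ : WeierstrassCurve K).baseChange F =
        K4H55.BD.crv (algebraMap K F a) (algebraMap K F b) := by
      ext <;> simp [K4H55.BD.crv]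
    refine ⟨G, ⟨g1, g2⟩, conclusion_of g3 ?_ ?_ ρ⟩
    · show Finite ((⟨0, 0, 0, (a : K), (b : K)⟩ : WeierstrassCurve K).baseChange F).toAffine.Point
      rw [e1]
      exact h1
    · show Odd (Nat.card
        ((⟨0, 0, 0, (a : K), (b : K)⟩ : WeierstrassCurve K).baseChange F).toAffine.Point)
      rw [e1]
      exact h1'
  · have hlt : Fact (1 < 2 ^ (e + 1)) := ⟨Nat.one_lt_two_pow (by omega)⟩
    have h1 := U81.AT.realize (K := K) (fun q hq => (hSk q hq).prime)
      (fun q hq => U81.AT.val_of h ((hiff _ _).1 (hSk q hq)).1.1)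
      (fun q hq => (hSk q hq).level) hinf (A := Multiplicative (ZMod (2 ^ (e + 1))))
      (N := e + 1) (by rw [Nat.card_congr Multiplicative.toAdd, Nat.card_zmod])
    refine h1.mono fun F hF => ?_
    obtain ⟨hF1, hF2, ⟨φ⟩⟩ := hF
    exact ⟨hF1, hF2, U81.AV.exists_rho e φ⟩
  · refine U81.AT.exists_levels (P := fun k q => IsAdmissible a b k q) fun m => ?_
    have h1 := (U81.AT.dens_top h hΔ hf.level hcub hθ.root m).2
    refine h1.mono fun q hq => ?_
    exact (hiff m q).2 hq

end Pool.Agent.Results.MP_b8021b_nt.AbelianVarietiesInTowers
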