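import Pool.Agent.U693.CT.Core
import Pool.Agent.U693.DC.Forms

/-!
# The rank part of the Beilinson–Bloch conjecture for diagonal cubic threefolds and fivefolds over ALL
# number fields in infinite cubic towers generated by primes of ARBITRARY sets

`K` is the field of the third roots of unity. For a set `T` of primary primes (prime elements
`≡ 1 mod 3`) let `K_T = K(∛(p / q) : p, q ∈ T)`, in a fixed algebraic closure, and let `Γ_T` be the set of
the products of `3 m` (not necessarily different) elements of `T`, `m ≥ 0`. Let `X_a` be the smooth cubic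
hypersurface `∑ a_i x_i ^ 3 = 0` of dimension `n = 2 c + 1`, `c = 0, 1, 2` (curves, threefolds, fivefolds). It
belongs to `D` and `T` if `a_i = D ^ {e_i} y_i` with `y_i ∈ Γ_T` and if `3` does not divide
`∑ e_i + ∑_{i ∈ S} e_i` for the sets `S` of `c` indices; for instance

  `y_0 x_0³ + … + y_{n} x_{n}³ + D^e y_{n+1} x_{n+1}³ = 0`, `e = 1, 2`, `y_i ∈ Γ_T` arbitrary.

(Without the condition on the exponents the intermediate Jacobian has a factor that does not depend on
`D`.) `Tower D T` says:

* `[K_A : K] = 3 ^ (#A - 1)` for the finite subsets `A ≠ ∅` of `T`;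
* `E_{D M}(K)` is finite and `Ш(E_{D M}/K)[3^∞] = 0` for all `M ∈ Γ_T`, `E_D : y² + D y = x³`;
* for ALL the number fields `F` with `K ⊆ F ⊆ K_T` and ALL the hypersurfaces `X_a` that belong to `D` and
  `T`, of dimension `n = 1, 3, 5`: `L(H^n(X_a / F), s)` is entire and not zero at its centre
  `s = (n + 1) / 2`, and the elliptic curves over `F` whose product is isogenous to the intermediate
  Jacobian of `X_a` have finitely many points.

Let `D` be good: squarefree, `≡ 1 mod 3`, of norm not `≡ 1 mod 9`, with `E_D(K)` finite and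
`Ш(E_D/K)[3^∞] = 0`; for instance any primary prime of norm not `≡ 1 mod 9`.

* INFINITE SETS: let `S` be ANY infinite set of primary primes. There is an infinite `T ⊆ S` such that
  `K_T` is of infinite degree over `K` and `Tower D T`, if and only if `D` is not a cube modulo infinitely
  many elements of `S`.
* FINITE SETS: if `S` is ANY finite set of primary primes modulo which `D` is not a cube, with at least
  `N = 3 ^ (3 k + ω(D) + 1)` elements, `k ≥ 1`, then `Tower D A` for at least
  `(|S| choose k) / (N choose k)` of the `k`-subsets `A` of `S`.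

The curves: for a set `S` of `c` indices let `δ_S = ∏ a_i ∏_{i ∈ S} a_i`. The intermediate Jacobian `J` of
`X_a` is isogenous to `∏_S E_{δ_S}`, the group of the homologically trivial cycles of codimension `i`,
tensored with `ℚ`, is `J(F) ⊗ ℚ` for `i = c + 1` and `0` for all the other `i` (Murre, Bloch and Murre,
Bloch and Srinivas for threefolds; Collino, Paranjape for fivefolds); this is not formalized. The
`L`-function is given by the numbers of points over the finite fields, outside of the places dividing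
`3 D P` with a `P ∈ Γ_T`; the Euler factors at the finitely many other places are left out; they are finite
and not zero at the centre.

Earlier: `FixedRadicalFields` (helper374) has one fixed field `F = K(∛d₁, …, ∛dₙ)` and a positive proportion
of the `D`, with the coefficients in the group of the `dᵢ`, all of which are cubes in `F`; the point
counts (`N883/DQ`, `U374/Cub`) and the law of the twists (`U854/TW`) are from there. Here `D` is fixed, the
primes are from an arbitrary thin set, the fields are all the number fields inside an infinite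
extension, and the coefficients are in the whole group `Γ_T`, in general not cubes in `F`, so that the
hypersurfaces over one field `F` are infinitely many twists of each other: new are the twists of both
types `D M` and `(D M)²` over `F` for an `M` which is not in the group of the `dᵢ` (`Pool/Agent/U693/DC`), and
the exact condition on the exponents. The sets `T` (the extension of a nonsingular Laplacian over `𝔽₃`
by a homogeneous set of primes with weights of sum zero, and the description of the fields between `K`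
and `K_T`) are those of `Pool/Agent/U693/CT`, written for `MP_32c55d_nt/CubicTowersArbitraryPrimes` and used
for `MP_ec4e4b_nt/InfiniteCubicTowers` (for the curve `E_D` only, with incomplete Euler products, and with
Bloch–Kato Selmer groups).
-/

set_option autoImplicit false

open scoped Classical

namespace Pool.Agent.Results.MP_b8021b_nt.DiagonalCubicTowers

open NumberField IsDedekindDomain WeierstrassCurve
open Pool.Agent.TH841.NF.D (Sha)

/-- The curve `E_D : y² + D y = x³`. -/
def curve {F : Type} [Field F] (D : F) : WeierstrassCurve F := ⟨0, 0, D, 0, 0⟩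

/-- The solutions, not all zero, of `∑ a i x i ^ 3 = 0` in the field `F`. -/
def solutions {m : ℕ} {F : Type} [Field F] (a : Fin m → F) : Set (Fin m → F) :=
  {x | x ≠ 0 ∧ ∑ i, a i * x i ^ 3 = 0}

section field

variable {k : Type} [Field k] [NumberField k]

/-- `A` is the multiset of the eigenvalues of the Frobenius at `v` on `H^n(X)`, for the hypersurface
`X : ∑ a i x i ^ 3 = 0` of dimension `n = 2 c + 1`: for every extension `F` of degree `r` of the residue
field of `v` (`f` is the reduction), with `q'` elements, the equation has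
`(q' - 1) (1 + q' + ... + q'^n - ∑ α^r)` nonzero solutions in `F`. -/
def IsFrobenius {c : ℕ} (a : Fin (2 * c + 3) → 𝓞 k) (v : HeightOneSpectrum (𝓞 k))
    (A : Multiset ℂ) : Prop :=
  ∀ (F : Type) [Field F] [Finite F] (f : 𝓞 k →+* F) (r : ℕ), RingHom.ker f = v.asIdeal →
    Nat.card F = Ideal.absNorm v.asIdeal ^ r →
    ((solutions fun i => f (a i)).ncard : ℂ) = (Nat.card F - 1) *
      (∑ i ∈ Finset.range (2 * c + 2), (Nat.card F : ℂ) ^ i - (A.map (fun α => α ^ r)).sum)

/-- `L` is entire and equal to the Euler product of `L(H^n(X / k), s)` over the places not dividing `B`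
for `Re s > n / 2 + 1`.  At these places there are `2 (2c+3 choose c)` eigenvalues of the Frobenius, of
the absolute value `N(v)^(n / 2)`. -/
def IsLFunction {c : ℕ} (a : Fin (2 * c + 3) → 𝓞 k) (B : 𝓞 k) (L : ℂ → ℂ) : Prop :=
  Differentiable ℂ L ∧ ∃ A : HeightOneSpectrum (𝓞 k) → Multiset ℂ,
    (∀ v, B ∉ v.asIdeal → IsFrobenius a v (A v) ∧ (A v).card = 2 * (2 * c + 3).choose c ∧
      ∀ α ∈ A v, ‖α‖ ^ 2 = (Ideal.absNorm v.asIdeal : ℝ) ^ (2 * c + 1)) ∧
    ∀ s : ℂ, (2 * c + 1 : ℝ) / 2 + 1 < s.re →
      HasProd (fun v : {v : HeightOneSpectrum (𝓞 k) // B ∉ v.asIdeal} =>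
        ((A v.1).map (fun α => (1 - α * (Ideal.absNorm v.1.asIdeal : ℂ) ^ (-s))⁻¹)).prod) (L s)

/-- Both sides are zero for `X : ∑ a i x i ^ 3 = 0` over `k`: `L(H^n(X / k), s)` is entire and not zero at
`s = (n + 1) / 2`, and the curves `E_δ` over `k`, `δ = ∏ a_i ∏_{i ∈ S} a_i` for the sets `S` of `c`
indices, have finitely many points. -/
def RankZero {c : ℕ} (a : Fin (2 * c + 3) → 𝓞 k) (B : 𝓞 k) : Prop :=
  (∃ L : ℂ → ℂ, IsLFunction a B L ∧ L (c + 1) ≠ 0) ∧
  ∀ S : Finset (Fin (2 * c + 3)), S.card = c →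
    Finite (curve (((∏ i, a i) * ∏ i ∈ S, a i : 𝓞 k) : k)).toAffine.Point

end field

variable {K : Type} [Field K] [NumberField K]

/-- prime elements `≡ 1 mod 3`; every prime element prime to `3` has exactly one such associate -/
def PrimaryPrime (q : 𝓞 K) : Prop := Prime q ∧ (3 : 𝓞 K) ∣ q - 1

/-- `a` is a cube modulo `q` -/
def CubeMod (q a : 𝓞 K) : Prop := ∃ b : 𝓞 K, q ∣ a - b ^ 3

/-- the number of the primary primes dividing `D` -/
noncomputable def omega (D : 𝓞 K) : ℕ := {q : 𝓞 K | PrimaryPrime q ∧ q ∣ D}.ncard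

/-- `E_D(K)` is finite and `Ш(E_D / K)[3^∞] = 0`. -/
def FiniteAndTrivial (D : 𝓞 K) : Prop :=
  Finite (curve (D : K)).toAffine.Point ∧ ∀ (k : ℕ) (y : Sha (curve (D : K))), 3 ^ k • y = 0 → y = 0

/-- `D` is squarefree, `≡ 1 mod 3`, of norm not `≡ 1 mod 9`, and `E_D(K)` is finite,
`Ш(E_D/K)[3^∞] = 0` -/
def Good (D : 𝓞 K) : Prop :=
  ((3 : 𝓞 K) ∣ D - 1 ∧ Squarefree D ∧ ¬ (9 : ℤ) ∣ Algebra.norm ℤ D - 1) ∧ FiniteAndTrivial D

/-- the field `K_T = K(∛(p / q) : p, q ∈ T)` inside an algebraic closure of `K` -/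
noncomputable def CubeField (T : Set (𝓞 K)) : IntermediateField K (AlgebraicClosure K) :=
  IntermediateField.adjoin K {z | ∃ p ∈ T, ∃ q ∈ T,
    z ^ 3 * algebraMap K (AlgebraicClosure K) (q : K) = algebraMap K (AlgebraicClosure K) (p : K)}

/-- `Γ_T`: the products of `3 m` elements of `T`, `m ≥ 0` -/
def Products (T : Set (𝓞 K)) (y : 𝓞 K) : Prop :=
  ∃ M : Multiset (𝓞 K), (∀ q ∈ M, q ∈ T) ∧ 3 ∣ M.card ∧ y = M.prod

/-- The hypersurface `∑ a i x i ^ 3 = 0` of dimension `2 c + 1` belongs to `D` and `T`: `a_i = D ^ {e_i} y_i`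
with `y_i ∈ Γ_T`, and `3` does not divide `∑ e_i + ∑_{i ∈ S} e_i` for the sets `S` of `c` indices. -/
def Belongs (D : 𝓞 K) (T : Set (𝓞 K)) {c : ℕ} (a : Fin (2 * c + 3) → 𝓞 K) : Prop :=
  ∃ (e : Fin (2 * c + 3) → ℕ) (y : Fin (2 * c + 3) → 𝓞 K),
    (∀ i, Products T (y i) ∧ a i = D ^ e i * y i) ∧
    ∀ S : Finset (Fin (2 * c + 3)), S.card = c → ¬ 3 ∣ ∑ i, e i + ∑ i ∈ S, e i

/-- The degrees of the fields `K_A`, `A ⊆ T` finite, are `3 ^ (#A - 1)`; `E_{D M}(K)` is finite and
`Ш(E_{D M}/K)[3^∞] = 0` for all `M ∈ Γ_T`; and for all the number fields `F` between `K` and `K_T` and all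
the hypersurfaces of dimension `1`, `3`, `5` that belong to `D` and `T` both sides are zero over `F`. -/
def Tower (D : 𝓞 K) (T : Set (𝓞 K)) : Prop :=
  (∀ A : Finset (𝓞 K), A.Nonempty → (A : Set (𝓞 K)) ⊆ T →
    Module.finrank K (CubeField (A : Set (𝓞 K))) = 3 ^ (A.card - 1)) ∧
  (∀ M, Products T M → FiniteAndTrivial (D * M)) ∧
  ∀ F : IntermediateField K (AlgebraicClosure K), F ≤ CubeField T → FiniteDimensional K F →
    ∃ _ : NumberField F, ∀ c ≤ 2, ∀ a : Fin (2 * c + 3) → 𝓞 K, Belongs D T a →
      ∃ P, Products T P ∧ P ≠ 0 ∧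
        RankZero (fun i => algebraMap (𝓞 K) (𝓞 F) (a i)) (algebraMap (𝓞 K) (𝓞 F) (3 * D * P))

section proof

open Pool.Agent.U693.CT
open Pool.Agent.U693.EisK (Gd3)

theorem tower_of [IsCyclotomicExtension {3} ℚ K] {D : 𝓞 K} (hD : Good D) {T : Set (𝓞 K)}
    (hne : T.Nonempty) (h : Cor D T) : Tower D T := by
  obtain ⟨h1, h2, h3⟩ := h
  obtain ⟨p₀, hp₀⟩ := hne
  refine ⟨fun A hA hAT => deg_cf hD.1 h1 h2 hAT hA, fun M hM => h3 _ hM, fun F hF hfd => ?_⟩
  have hN : NumberField F := NumberField.of_module_finite K F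
  refine ⟨hN, fun c hc a ha => ?_⟩
  obtain ⟨P, hP, h⟩ := Pool.Agent.U693.DC.forms_F hD.1 h1 h2 h3 hp₀ F hF hfd hN hc (a := a) ha
  refine ⟨P, hP, ?_, h⟩
  rintro rfl
  have h4 := h2 _ hP
  rw [Algebra.norm_zero] at h4
  norm_num at h4

end proof

/-- **Main theorem.** -/
theorem result (K : Type) [Field K] [NumberField K] [IsCyclotomicExtension {3} ℚ K] :
    (∀ q : 𝓞 K, PrimaryPrime q → ¬ (9 : ℤ) ∣ Algebra.norm ℤ q - 1 → Good q) ∧
    ∀ D : 𝓞 K, Good D →
      -- infinite sets
      (∀ S : Set (𝓞 K), (∀ q ∈ S, PrimaryPrime q) →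
        ((∃ T ⊆ S, T.Infinite ∧ ¬ FiniteDimensional K (CubeField T) ∧ Tower D T) ↔
          {q ∈ S | ¬ CubeMod q D}.Infinite)) ∧
      -- finite sets
      (∀ (k : ℕ) (S : Finset (𝓞 K)), 1 ≤ k → (∀ q ∈ S, PrimaryPrime q ∧ ¬ CubeMod q D) →
        3 ^ (3 * k + omega D + 1) ≤ S.card →
        S.card.choose k ≤ (3 ^ (3 * k + omega D + 1)).choose k *
          ((S.powersetCard k).filter fun A : Finset (𝓞 K) => Tower D (A : Set (𝓞 K))).card) := by
  obtain ⟨⟨j, hj⟩, -⟩ := Pool.Agent.Y455.CTK.jex K
  refine ⟨fun q hq hN => Pool.Agent.U693.EisK.prime_K j hj hq hN, fun D hD => ⟨fun S hS => ?_,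
    fun k S hk hS hc => ?_⟩⟩
  · constructor
    · rintro ⟨T, hTS, hTi, -, hT⟩
      exact Pool.Agent.U693.CT.inf_conv hD hS hTS hTi fun d hd => hT.2.1 d hd
    · intro hI
      obtain ⟨T, hTS, hTi, hT⟩ := Pool.Agent.U693.CT.inf_cor hD hS hI
      exact ⟨T, hTS, hTi, Pool.Agent.U693.CT.cf_inf hD.1 hT.1 hT.2.1 hTi,
        tower_of hD hTi.nonempty hT⟩
  · refine (Pool.Agent.U693.CT.fin_cor hD k S hS hc).trans (Nat.mul_le_mul_left _ ?_)
    refine Finset.card_le_card ?_
    intro A hA
    rw [Finset.mem_filter] at hA ⊢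
    refine ⟨hA.1, tower_of hD ?_ hA.2⟩
    have h1 := (Finset.mem_powersetCard.1 hA.1).2
    have h2 : A.Nonempty := Finset.card_pos.1 (by omega)
    exact_mod_cast h2

end Pool.Agent.Results.MP_b8021b_nt.DiagonalCubicTowers
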