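import Pool.Agent.U854.TW.Dlaw
import Pool.Agent.U374.Cub.Forms

/-!
# The rank part of the Beilinson–Bloch conjecture for diagonal cubic threefolds and fivefolds over
# EVERY fixed field `F = K(∛d₁, …, ∛dₙ)`, `K = ℚ(√-3)`

`K` is the field of the third roots of unity and `F = K(∛d₁, …, ∛dₙ)`, where the `dᵢ` are arbitrary
elements of `𝓞 K`, `1` modulo `3`, of norm `1` modulo `9`, independent modulo cubes.  `D` runs through
the squarefree `D = 1` modulo `3` of `𝓞 K`, prime to the `dᵢ`, whose norm is not `1` modulo `9`, ordered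
by the norm; there are at least `c X` of them.  A form `∑ a_i x_i ^ 3` belongs to `D` if one of the
coefficients is `D` or `D²` times a product of powers of the `dᵢ`, and all the others are products of
powers of the `dᵢ`.  Let `X_a` be the smooth cubic hypersurface of dimension `n = 2 c + 1`, `c = 0, 1, 2`,
with the equation `∑ a_i x_i ^ 3 = 0`, and `E_δ : y² + δ y = x³`.

* The proportion of the `D` for which all the `3 ^ n` curves `E_{D_t}`, `D_t = D ∏ dᵢ ^ tᵢ`, have
  finitely many points over `K` and trivial `Ш[3^∞]` tends to `p ^ [F : K]`, where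
  `p = ∏ (1 - 3 ^ {-(2 i + 1)}) = 0.639…`, `[F : K] = 3 ^ n`.
* For each of these `D`, for ALL the forms `a` that belong to `D`, for `n = 1, 3, 5`, and for both
  `k = K` and `k = F`: `L(H^n(X_a / k), s)` is entire and not zero at its centre `s = (n + 1) / 2`, and
  the elliptic curves over `k` whose product is isogenous to the intermediate Jacobian of `X_a` have
  finitely many points.

So the field `F` is fixed, and `D` varies: for every such `F` the two sides of the conjecture are equal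
(to `0`) for a positive proportion of the cubic threefolds `x_0³ + x_1³ + x_2³ + x_3³ + D x_4³ = 0` over
`F`.

The curves: for a set `T` of `c` indices let `δ_T = ∏ a_i ∏_{i ∈ T} a_i`.  The intermediate Jacobian `J` of
`X_a` is isogenous to `∏_T E_{δ_T}`, the group of the homologically trivial cycles of codimension `i`,
tensored with `ℚ`, is `J(k) ⊗ ℚ` for `i = c + 1` and `0` for all the other `i` (Murre, Bloch and Murre,
Bloch and Srinivas for threefolds; Collino, Paranjape for fivefolds); this is not formalized.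

The `L`-function is given by the numbers of points: for a place `v` of `k` not dividing `3 D ∏ dᵢ` the
eigenvalues `α` of the Frobenius on `H^n(X_a)` (`2`, `10` and `42` for `n = 1, 3, 5`) are determined by
`#X_a(k') = 1 + q' + … + q'^n - ∑ α^r` for all the finite extensions `k'` of the residue field.  The
Euler factors at the finitely many other places are left out; they are finite and not zero at the
centre, so the order of vanishing is the same.

The point counts are those of `Pool/Agent/N883/DQ` (for `MP_6dc9d1_nt.DiagonalCubics`, where the field is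
`ℚ` or a real field `ℚ(∛l : l ∈ S)` with primes `l = 1` modulo `9`); in `MajorityDiagonalCubics` of
this problem the field is `K` or the field `K(∛D)`, which depends on `D`.  The law of the twists and
the curve `E_D` over `F` are those of helper854 (`Pool/Agent/U854/TW`), built on the libraries Q283/T3
and R432; new here are the inverse twist `E_{D²}` over `F`, the Euler products of all the twists over
`K` over the same set of places, and the hypersurfaces.
-/

set_option autoImplicit false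

open scoped Classical

namespace Pool.Agent.Results.MP_b8021b_nt.FixedRadicalFields

open NumberField IsDedekindDomain WeierstrassCurve Filter
open Pool.Agent.TH841.NF.D (Sha)

/-- The curve `E_D : y² + D y = x³`. -/
def curve {F : Type} [Field F] (D : F) : WeierstrassCurve F := ⟨0, 0, D, 0, 0⟩

/-- The solutions, not all zero, of `∑ a i x i ^ 3 = 0` in the field `F`. -/
def solutions {m : ℕ} {F : Type} [Field F] (a : Fin m → F) : Set (Fin m → F) :=
  {x | x ≠ 0 ∧ ∑ i, a i * x i ^ 3 = 0}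

section field

variable {k : Type} [Field k] [NumberField k]

/-- `A` is the multiset of the eigenvalues of the Frobenius at `v` on `H^n(X)`, for the hypersurface
`X : ∑ a i x i ^ 3 = 0` of dimension `n = 2 c + 1`: for every extension `F` of degree `r` of the residue
field of `v` (`f` is the reduction), with `q'` elements, the equation has
`(q' - 1) (1 + q' + ... + q'^n - ∑ α^r)` nonzero solutions in `F`. -/
def IsFrobenius {c : ℕ} (a : Fin (2 * c + 3) → 𝓞 k) (v : HeightOneSpectrum (𝓞 k))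
    (A : Multiset ℂ) : Prop :=
  ∀ (F : Type) [Field F] [Finite F] (f : 𝓞 k →+* F) (r : ℕ), RingHom.ker f = v.asIdeal →
    Nat.card F = Ideal.absNorm v.asIdeal ^ r →
    ((solutions fun i => f (a i)).ncard : ℂ) = (Nat.card F - 1) *
      (∑ i ∈ Finset.range (2 * c + 2), (Nat.card F : ℂ) ^ i - (A.map (fun α => α ^ r)).sum)

/-- `L` is entire and equal to the Euler product of `L(H^n(X / k), s)` over the places not dividing `B`
for `Re s > n / 2 + 1`.  At these places there are `2 (2c+3 choose c)` eigenvalues of the Frobenius, of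
the absolute value `N(v)^(n / 2)`. -/
def IsLFunction {c : ℕ} (a : Fin (2 * c + 3) → 𝓞 k) (B : 𝓞 k) (L : ℂ → ℂ) : Prop :=
  Differentiable ℂ L ∧ ∃ A : HeightOneSpectrum (𝓞 k) → Multiset ℂ,
    (∀ v, B ∉ v.asIdeal → IsFrobenius a v (A v) ∧ (A v).card = 2 * (2 * c + 3).choose c ∧
      ∀ α ∈ A v, ‖α‖ ^ 2 = (Ideal.absNorm v.asIdeal : ℝ) ^ (2 * c + 1)) ∧
    ∀ s : ℂ, (2 * c + 1 : ℝ) / 2 + 1 < s.re →
      HasProd (fun v : {v : HeightOneSpectrum (𝓞 k) // B ∉ v.asIdeal} =>
        ((A v.1).map (fun α => (1 - α * (Ideal.absNorm v.1.asIdeal : ℂ) ^ (-s))⁻¹)).prod) (L s)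

/-- Both sides are zero for `X : ∑ a i x i ^ 3 = 0` over `k`: `L(H^n(X / k), s)` is entire and not zero at
`s = (n + 1) / 2`, and the curves `E_δ` over `k`, `δ = ∏ a_i ∏_{i ∈ T} a_i` for the sets `T` of `c`
indices, have finitely many points. -/
def RankZero {c : ℕ} (a : Fin (2 * c + 3) → 𝓞 k) (B : 𝓞 k) : Prop :=
  (∃ L : ℂ → ℂ, IsLFunction a B L ∧ L (c + 1) ≠ 0) ∧
  ∀ T : Finset (Fin (2 * c + 3)), T.card = c →
    Finite (curve (((∏ i, a i) * ∏ i ∈ T, a i : 𝓞 k) : k)).toAffine.Point

end field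

variable {K : Type} [Field K] [NumberField K]

/-- `d₁, …, dₙ` are `1` modulo `3`, their norms are `1` modulo `9`, and they are independent modulo
cubes. -/
structure Family {n : ℕ} (d : Fin n → 𝓞 K) : Prop where
  three : ∀ i, (3 : 𝓞 K) ∣ d i - 1
  nine : ∀ i, (9 : ℤ) ∣ Algebra.norm ℤ (d i) - 1
  ind : ∀ a : Fin n → ℕ, (∃ x : 𝓞 K, x ^ 3 = ∏ i, d i ^ a i) → ∀ i, 3 ∣ a i

/-- `F = K(∛d₁, …, ∛dₙ)`. -/
def Generated {n : ℕ} (d : Fin n → 𝓞 K) (F : Type) [Field F] [Algebra K F] : Prop :=
  ∃ r : Fin n → F, (∀ i, r i ^ 3 = algebraMap K F (d i : K)) ∧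
    ∀ L : Subfield F, (∀ k : K, algebraMap K F k ∈ L) → (∀ i, r i ∈ L) → L = ⊤

/-- `D` is squarefree and `1` modulo `3`, its norm is not `1` modulo `9`, and it is prime to the `dᵢ`. -/
def InClass {n : ℕ} (d : Fin n → 𝓞 K) (D : 𝓞 K) : Prop :=
  ((3 : 𝓞 K) ∣ D - 1 ∧ Squarefree D ∧ ¬ (9 : ℤ) ∣ Algebra.norm ℤ D - 1) ∧
    ∀ π : 𝓞 K, Prime π → π ∣ D → ¬ π ∣ ∏ i, d i

/-- `D_t = D ∏ dᵢ ^ tᵢ`, `t` in `(ℤ/3)ⁿ` (the exponents are taken in `{0, 1, 2}`). -/
noncomputable def twist {n : ℕ} (d : Fin n → 𝓞 K) (D : 𝓞 K) (t : Fin n → ZMod 3) : 𝓞 K :=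
  D * ∏ i, d i ^ (t i).val

/-- For all `t` the group `E_{D_t}(K)` is finite and the `3`-primary part of `Ш(E_{D_t} / K)` is
trivial. -/
def AllTrivial {n : ℕ} (d : Fin n → 𝓞 K) (D : 𝓞 K) : Prop :=
  ∀ t : Fin n → ZMod 3, Finite (curve (twist d D t : K)).toAffine.Point ∧
    ∀ (m : ℕ) (x : Sha (curve (twist d D t : K))), 3 ^ m • x = 0 → x = 0

/-- the `D` in the class of norm at most `X` with the property `P` -/
def upTo {n : ℕ} (d : Fin n → 𝓞 K) (X : ℕ) (P : 𝓞 K → Prop) : Set (𝓞 K) :=
  {D | (Algebra.norm ℤ D ≤ X ∧ InClass d D) ∧ P D}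

/-- the proportion of the `D` of norm at most `X` in the class with the property `P` -/
noncomputable def proportion {n : ℕ} (d : Fin n → 𝓞 K) (P : 𝓞 K → Prop) (X : ℕ) : ℝ :=
  ((upTo d X P).ncard : ℝ) / ((upTo d X fun _ => True).ncard : ℝ)

/-- `p = ∏_{i ≥ 0} (1 - 3^{-(2 i + 1)})` -/
noncomputable def p : ℝ := ∏' i : ℕ, (1 - (1 / 3 : ℝ) ^ (2 * i + 1))

/-- `y` is a product of powers of the `dᵢ`. -/
def Monomial {n : ℕ} (d : Fin n → 𝓞 K) (y : 𝓞 K) : Prop := ∃ m : Fin n → ℕ, y = ∏ i, d i ^ m i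

/-- The form `∑ a i x i ^ 3` belongs to `D`: one of the coefficients is `D` or `D²` times a product of
powers of the `dᵢ`, and all the others are products of powers of the `dᵢ`. -/
def Belongs {n m : ℕ} (d : Fin n → 𝓞 K) (D : 𝓞 K) (a : Fin m → 𝓞 K) : Prop :=
  ∃ i₀, (∃ y, Monomial d y ∧ (a i₀ = D * y ∨ a i₀ = D ^ 2 * y)) ∧
    ∀ i, i ≠ i₀ → Monomial d (a i)

/-! ### The proof -/

open Pool.Agent.U854.TW (law_triv perF prodd_ne)
open Q283.T3B (NC low_K fin_K)
open Pool.Agent.Y696.CTK (ClsK Tri)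
open Pool.Agent.U374.Cub (rz_K rz_F RZ)

omit [NumberField K] in
theorem fam {n : ℕ} {d : Fin n → 𝓞 K} (hd : Family d) : Pool.Agent.U854.TW.Family d :=
  ⟨hd.three, hd.nine, hd.ind⟩

theorem rz_iff {k : Type} [Field k] [NumberField k] {c : ℕ} {a : Fin (2 * c + 3) → 𝓞 k} {B : 𝓞 k}
    (h : RZ a B) : RankZero a B := h

/-- There is a field generated by the cube roots. -/
theorem exists_generated {n : ℕ} (d : Fin n → 𝓞 K) :
    ∃ (F : Type) (_ : Field F) (_ : NumberField F) (_ : Algebra K F), Generated d F := by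
  let p : Polynomial K := ∏ i, (Polynomial.X ^ 3 - Polynomial.C (d i : K))
  let F : Type := p.SplittingField
  have : NumberField F := NumberField.of_module_finite K F
  have hp0 : p ≠ 0 := Finset.prod_ne_zero_iff.2 fun i _ =>
    Polynomial.X_pow_sub_C_ne_zero (by norm_num) _
  have hsp : (p.map (algebraMap K F)).Splits := Polynomial.SplittingField.splits p
  have hp0' : p.map (algebraMap K F) ≠ 0 :=
    (Polynomial.map_ne_zero_iff (algebraMap K F).injective).2 hp0
  have hroot : ∀ i, ∃ x : F, x ^ 3 = algebraMap K F (d i : K) := by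
    intro i
    have h1 : ((Polynomial.X ^ 3 - Polynomial.C (d i : K)).map (algebraMap K F)).Splits :=
      hsp.of_dvd hp0' (Polynomial.map_dvd _ (Finset.dvd_prod_of_mem _ (Finset.mem_univ i)))
    obtain ⟨x, hx⟩ := h1.exists_eval_eq_zero (by
      rw [Polynomial.degree_map, Polynomial.degree_X_pow_sub_C (by norm_num)]
      norm_num)
    refine ⟨x, ?_⟩
    simp at hx
    linear_combination hx
  choose r hr using hroot
  let M : IntermediateField K F := IntermediateField.adjoin K (Set.range r)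
  have hMn : NumberField M := NumberField.of_module_finite K M
  have hrM : ∀ i, r i ∈ M := fun i => IntermediateField.subset_adjoin K _ ⟨i, rfl⟩
  refine ⟨M, inferInstance, hMn, inferInstance, fun i => ⟨r i, hrM i⟩,
    fun i => ?_, fun L hL1 hL2 => ?_⟩
  · apply Subtype.ext
    exact hr i
  · rw [eq_top_iff]
    intro y _
    let L' : IntermediateField K F :=
      { (L.map (algebraMap M F)) with
        algebraMap_mem' := fun k => ⟨algebraMap K M k, hL1 k, rfl⟩ }
    have h1 : M ≤ L' := by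
      apply IntermediateField.adjoin_le_iff.2
      rintro _ ⟨i, rfl⟩
      exact ⟨_, hL2 i, rfl⟩
    obtain ⟨y', hy', h2⟩ := h1 y.2
    have h3 : y' = y := Subtype.ext h2
    rw [← h3]
    exact hy'

/-- **Main theorem.** -/
theorem result (K : Type) [Field K] [NumberField K] [IsCyclotomicExtension {3} ℚ K] (n : ℕ)
    (d : Fin n → 𝓞 K) (hd : Family d) :
    -- the field exists, and the class has positive density
    (∃ (F : Type) (_ : Field F) (_ : NumberField F) (_ : Algebra K F), Generated d F) ∧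
    (∃ c : ℝ, 0 < c ∧ ∃ X₀ : ℕ, ∀ X : ℕ, X₀ ≤ X → c * X ≤ ((upTo d X fun _ => True).ncard : ℝ)) ∧
    -- the proportion
    Tendsto (proportion d (AllTrivial d)) atTop (nhds (p ^ (3 ^ n))) ∧ 0.639 < p ∧
    -- the hypersurfaces over `K` and over `F`
    ∀ D : 𝓞 K, InClass d D → AllTrivial d D → ∀ c : ℕ, c ≤ 2 → ∀ a : Fin (2 * c + 3) → 𝓞 K,
      Belongs d D a → RankZero a (3 * D * ∏ i, d i) ∧
      ∀ (F : Type) [Field F] [NumberField F] [Algebra K F], Generated d F →
        Module.finrank K F = 3 ^ n ∧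
        RankZero (fun i => algebraMap (𝓞 K) (𝓞 F) (a i))
          (algebraMap (𝓞 K) (𝓞 F) (3 * D * ∏ i, d i)) := by
  have hC9 := Pool.Agent.Y703.XL.t_C9
  have hset0 : ∀ X : ℕ, (upTo d X fun _ => True) =
      {D : 𝓞 K | Algebra.norm ℤ D ≤ X ∧ ClsK D ∧ NC D (∏ i, d i)} := by
    intro X
    ext D
    show ((_ ∧ (_ ∧ _)) ∧ True) ↔ (_ ∧ _ ∧ _)
    rw [and_true]
    exact Iff.rfl
  have hset2 : ∀ X : ℕ, upTo d X (AllTrivial d) =
      {D : 𝓞 K | Algebra.norm ℤ D ≤ X ∧ ClsK D ∧ NC D (∏ i, d i) ∧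
        ∀ t, (Tri (D * Pool.Agent.U854.TW.mt d t) ↔
          t ∈ (Finset.univ : Finset (Fin n → ZMod 3)))} := by
    intro X
    ext D
    have h1 : AllTrivial d D ↔ ∀ t, (Tri (D * Pool.Agent.U854.TW.mt d t) ↔
        t ∈ (Finset.univ : Finset (Fin n → ZMod 3))) := by
      refine forall_congr' fun t => ?_
      simp only [Finset.mem_univ, iff_true]
      exact Iff.rfl
    have h2 : D ∈ upTo d X (AllTrivial d) ↔ (Algebra.norm ℤ D ≤ X ∧ InClass d D) ∧ AllTrivial d D :=
      Iff.rfl
    rw [h2, h1, Set.mem_ofPred_eq, and_assoc]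
    refine and_congr_right fun _ => ?_
    show ((_ ∧ _) ∧ _) ↔ (_ ∧ _ ∧ _)
    rw [and_assoc]
    exact Iff.rfl
  refine ⟨exists_generated d, ?_, ?_, hC9.2.2.2.1, ?_⟩
  · obtain ⟨c, hc, X₀, h⟩ := low_K K (∏ i, d i) (prodd_ne (fam hd))
    refine ⟨c, hc, X₀, fun X hX => ?_⟩
    rw [hset0]
    exact h X hX
  · have h := law_triv K (fam hd) (Finset.univ : Finset (Fin n → ZMod 3))
    have e : Pool.Agent.Y703.XL.cr 0 ^ (Finset.univ : Finset (Fin n → ZMod 3)).card *
        (1 - Pool.Agent.Y703.XL.cr 0) ^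
          (3 ^ n - (Finset.univ : Finset (Fin n → ZMod 3)).card) = p ^ (3 ^ n) := by
      rw [Finset.card_univ, Fintype.card_fun, ZMod.card, Fintype.card_fin, Nat.sub_self, pow_zero,
        mul_one]
      congr 1
      unfold Pool.Agent.Y703.XL.cr
      rw [Finset.prod_range_zero, div_one]
      rfl
    rw [e] at h
    refine h.congr fun X => ?_
    unfold proportion
    rw [hset2, hset0]
  · intro D hD ht c hc a ha
    have htri : ∀ t, Tri (D * Pool.Agent.U854.TW.mt d t) := ht
    refine ⟨rz_iff (rz_K K (fam hd) hD.1 htri hc ha), fun F _ _ _ hF => ?_⟩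
    obtain ⟨x, hx, hgen⟩ := hF
    obtain ⟨r, h1, h2⟩ := perF K (fam hd) hD.1
    obtain ⟨h3, -, h5⟩ := h2 F x hx hgen
    obtain ⟨h6, h7, -⟩ := h5 fun t => (h1 t).2.2.2 (htri t)
    exact ⟨h3, rz_iff (rz_F K (fam hd) hD.1 htri x hx hgen h3 ⟨h6, h7⟩ hc ha)⟩

end Pool.Agent.Results.MP_b8021b_nt.FixedRadicalFields
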