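import Pool.Agent.Results.MP_b8021b_nt.MajorityDiagonalCubics
import Pool.Agent.Results.MP_787500_nt.PrimeTwistsOfDiagonalCubics
import Pool.Agent.Results.MP_e996df_nt.MajorityThreePart
import Pool.Agent.U687.KT.Lf

/-!
# The rank part of the Beilinson–Bloch conjecture for the diagonal cubic curves, threefolds and fivefolds
# over `ℚ(√-3)` one coefficient of which is multiplied by a prime: exact densities, all coefficients

`K` is the field of the third roots of unity.  We fix different primes `π_1, …, π_n = 1` modulo `3` of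
`𝓞 K`.  Let `c = 0, 1, 2`, let `a_l = ω ^ u_l ∏ π_k ^ b_{l,k}`, `l = 0, …, 2 c + 2`, be ARBITRARY elements
of the group generated by `ω` and the `π_k` modulo cubes (every nonzero element of `K` whose valuation at
`√-3` is divisible by three is of this form up to a cube, for suitable `π_k`), `i₀` an index, `f = 1, 2`,
and let `q = 1` modulo `3` be a variable prime.  We study the smooth cubic hypersurface

  `X_q : ∑_{l ≠ i₀} a_l x_l³ + a_{i₀} q ^ f x_{i₀}³ = 0`

of dimension `N = 2 c + 1`.  Its cohomology in the middle dimension is the sum of the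
`H^1(E_{δ_T})(-c)`, `E_δ : y² + δ y = x³`, over the sets `T` of `c` indices; up to a cube `δ_T` is
`D_T(q) = ω ^ i ∏ π_k ^ e_k q ^ g`, with exponents `e_k`, `g` equal to `0, 1, 2` and `g ≠ 0`.
We fix the class `1 + 3 a` modulo `9` of the norm of `q`, such that
no `D_T(q)` is both `1` modulo `3` and of norm `1` modulo `9`.  Nothing is assumed on the curves.

* For ALL primes `q` of this class (different from the `π_k`) the function `L(H^N(X_q), s)`, with the Euler
  factors at all the places, is entire.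
* If `E_{D_T(q)}(K)` is finite and `Ш(E_{D_T(q)} / K)[3^∞] = 0` for all the `T`, then
  `L(H^N(X_q), (N + 1) / 2) ≠ 0`.
* The proportion of the primes `q` of the class for which this is the case (so that the groups
  `E_{D_T(q)}(K)` are finite and `L(H^N(X_q), (N + 1) / 2) ≠ 0`) tends to
  the proportion of the vectors `x` of length `n` over the field with three elements such that for all the
  `T` the graph of `D_T(q)`, with the new vertex `q` joined to `π_k` by `x_k` and to `ω` by `a`, is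
  connected (in the sense of the weighted Laplacian over the field with three elements).
* Curves (`c = 0`): this proportion is at least `(2 / 3) ^ n` if `∑ e_k η_k + f a ≠ 0`.
* Suppose that at most two of the `a_l` are not cubes, `a_{i₀}` and `a_{i₁}`, which are arbitrary.  Then there
  is a class `a` for which the proportion is at least `3 ^ (- n) > 0`, for the curves, the
  threefolds and the fivefolds.

Relation to the conjecture (not formalized): the intermediate Jacobian `J` of `X_q` is isogenous over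
`K` to the product of the `E_{δ_T}`, and the group of the homologically trivial cycles of codimension
`i`, tensored with `ℚ`, is `J(K) ⊗ ℚ` for `i = c + 1` and `0` for all the other `i` (Murre, Bloch and
Murre, Bloch and Srinivas for threefolds; Collino, Paranjape for fivefolds).  So for these `q` the
ranks `rank CH^i(X_q)_hom` and the orders `ord_{s = i} L(H^{2 i - 1}(X_q), s)` are both zero.

Proof.  The criterion for one curve `E_D` and the function `L(E_D, s)` are the starting results (projects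
FF, FG).  By cubic reciprocity the new prime is a new vertex of the graph of every `D_T`, and its symbols
are the SAME free perturbation of the diagonals of all the reduced Laplacians; their joint law
follows from the theorem of Chebotarev.  For two of the coefficients the determinants are, by the duality
`D ↦ D²`, those of two matrices only, and two determinants can be made nonzero by one diagonal matrix.
-/

set_option autoImplicit false

namespace Pool.Agent.Results.MP_b8021b_nt.PrimeTwistsOfDiagonalCubics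

open NumberField IsDedekindDomain Filter Topology
open Pool.Agent.Results.MP_b8021b_nt.MajorityDiagonalCubics (curve IsFrobenius FiniteAndTrivial)
open scoped Classical

variable {K : Type} [Field K] [NumberField K]

/-- The `π_k` are primes, `1` modulo `3`, none divides another, and the cubic residue symbols of `π_k` and
of `ω` modulo `π_j` are `ω ^ χ j k` and `ω ^ η j`. -/
def IsSystem (ω : 𝓞 K) (n : ℕ) (π : Fin n → 𝓞 K) (χ : Fin n → Fin n → ZMod 3)
    (η : Fin n → ZMod 3) : Prop :=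
  (∀ k, Prime (π k) ∧ (3 : 𝓞 K) ∣ π k - 1) ∧
  (∀ k j, k ≠ j → ¬ π j ∣ π k ∧
    π j ∣ π k ^ (((Algebra.norm ℤ (π j)).natAbs - 1) / 3) - ω ^ (χ j k).val) ∧
  ∀ j, π j ∣ ω ^ (((Algebra.norm ℤ (π j)).natAbs - 1) / 3) - ω ^ (η j).val

/-- `ω ^ i ∏ π_k ^ e_k` -/
def monomial {n : ℕ} (ω : 𝓞 K) (π : Fin n → 𝓞 K) (i : ZMod 3) (e : Fin n → ZMod 3) : 𝓞 K :=
  ω ^ i.val * ∏ k, π k ^ (e k).val

/-- The coefficients of `X_q`. -/
def coefficient {n c : ℕ} (ω : 𝓞 K) (π : Fin n → 𝓞 K) (u : Fin (2 * c + 3) → ZMod 3)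
    (b : Fin (2 * c + 3) → Fin n → ZMod 3) (i₀ : Fin (2 * c + 3)) (f : ZMod 3)
    (q : 𝓞 K) (l : Fin (2 * c + 3)) : 𝓞 K :=
  monomial ω π (u l) (b l) * (if l = i₀ then q ^ f.val else 1)

/-- `∑ g + ∑_T g`, the exponent of a prime in `δ_T`. -/
def weight {ι M : Type} [Fintype ι] [AddCommMonoid M] (g : ι → M) (T : Finset ι) : M :=
  ∑ l, g l + ∑ l ∈ T, g l

/-- The exponent of `q` in `δ_T`. -/
def weightQ {c : ℕ} (i₀ : Fin (2 * c + 3)) (f : ZMod 3) (T : Finset (Fin (2 * c + 3))) : ZMod 3 :=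
  weight (fun l => if l = i₀ then f else 0) T

/-- The representative `D_T(q)` of `δ_T(q)` modulo cubes. -/
def representative {n c : ℕ} (ω : 𝓞 K) (π : Fin n → 𝓞 K) (u : Fin (2 * c + 3) → ZMod 3)
    (b : Fin (2 * c + 3) → Fin n → ZMod 3) (i₀ : Fin (2 * c + 3)) (f : ZMod 3)
    (q : 𝓞 K) (T : Finset (Fin (2 * c + 3))) : 𝓞 K :=
  monomial ω π (weight u T) (weight b T) * q ^ (weightQ i₀ f T).val

/-- The Laplacian, over the field with three elements, of the graph with the vertices `k` such that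
`e k ≠ 0` (values `v k`) and `ω` (value `t`) has no solutions besides the multiples of `v k = 1`,
`t = i`. -/
def IsConnected {n : ℕ} (e : Fin n → ZMod 3) (i : ZMod 3) (χ : Fin n → Fin n → ZMod 3)
    (η : Fin n → ZMod 3) : Prop :=
  ∀ (v : Fin n → ZMod 3) (t : ZMod 3),
    (∀ j, e j ≠ 0 → ∑ k, e k * χ j k * (v k - v j) + η j * (t - i * v j) = 0) →
    ∀ j, e j ≠ 0 → t = i * v j ∧ ∀ k, e k ≠ 0 → v k = v j

/-- The symbols of the graph with the new vertex `0`, joined to the old vertices by `x`. -/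
def addVertex {n : ℕ} (χ : Fin n → Fin n → ZMod 3) (x : Fin n → ZMod 3) :
    Fin (n + 1) → Fin (n + 1) → ZMod 3 :=
  Fin.cons (Fin.cons 0 x) fun j => Fin.cons (x j) (χ j)

/-- All the graphs of the `D_T(q)` are connected if the new vertex is joined to the old vertices by `x`
and to `ω` by `a`. -/
def AllConnected {n c : ℕ} (χ : Fin n → Fin n → ZMod 3) (η : Fin n → ZMod 3)
    (u : Fin (2 * c + 3) → ZMod 3) (b : Fin (2 * c + 3) → Fin n → ZMod 3) (i₀ : Fin (2 * c + 3))
    (f a : ZMod 3) (x : Fin n → ZMod 3) : Prop :=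
  ∀ T : Finset (Fin (2 * c + 3)), T.card = c →
    IsConnected (Fin.cons (weightQ i₀ f T) (weight b T) : Fin (n + 1) → ZMod 3) (weight u T)
      (addVertex χ x) (Fin.cons a η : Fin (n + 1) → ZMod 3)

/-- No `D_T(q)` is both `1` modulo `3` and of norm `1` modulo `9`, for `q` of norm `1 + 3 a` modulo `9`. -/
def NotExceptional {n c : ℕ} (η : Fin n → ZMod 3) (u : Fin (2 * c + 3) → ZMod 3)
    (b : Fin (2 * c + 3) → Fin n → ZMod 3) (i₀ : Fin (2 * c + 3)) (f a : ZMod 3) : Prop :=
  ∀ T : Finset (Fin (2 * c + 3)), T.card = c → weight u T = 0 →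
    ∑ k, weight b T k * η k + weightQ i₀ f T * a ≠ 0

/-- The primes `q = 1` modulo `3` of norm at most `X`, the norm being `1 + 3 a` modulo `9`. -/
def Primes (K : Type) [Field K] [NumberField K] (a : ZMod 3) (X : ℕ) : Set (𝓞 K) :=
  {q | Prime q ∧ (3 : 𝓞 K) ∣ q - 1 ∧ Algebra.norm ℤ q ≤ X ∧
    Algebra.norm ℤ q % 9 = 1 + 3 * (a.val : ℤ)}

/-- `L` is entire and equal to `L(H^N(X), s)` for `Re s > N / 2 + 1`, for the hypersurface
`X : ∑ a i x i ^ 3 = 0` of dimension `N = 2 c + 1`.  At the places `v` not dividing `3` and the `a i` the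
`2 (2c+3 choose c)` eigenvalues of the Frobenius have the absolute value `N(v)^(N / 2)`.  At all the
places `v` not dividing `3`, every set `T` of `c` indices such that `v` does not divide `D T` (the
representative of `δ_T` without cubes) gives the two eigenvalues `N(v)^c β`, `N(v)^c conj β` of
`H^1(E_{D T})(-c)`, and the others give none.  At the places dividing `3` the Euler factor is `1`. -/
def IsLFunction {c : ℕ} (a : Fin (2 * c + 3) → 𝓞 K) (D : Finset (Fin (2 * c + 3)) → 𝓞 K)
    (L : ℂ → ℂ) : Prop :=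
  Differentiable ℂ L ∧ ∃ A : HeightOneSpectrum (𝓞 K) → Multiset ℂ,
    (∀ v, (3 : 𝓞 K) ∉ v.asIdeal → (∀ i, a i ∉ v.asIdeal) → IsFrobenius a v (A v) ∧
      (A v).card = 2 * (2 * c + 3).choose c ∧
      ∀ α ∈ A v, ‖α‖ ^ 2 = (Ideal.absNorm v.asIdeal : ℝ) ^ (2 * c + 1)) ∧
    (∀ v, (3 : 𝓞 K) ∉ v.asIdeal → ∃ β : Finset (Fin (2 * c + 3)) → ℂ,
      (∀ T, D T ∉ v.asIdeal → β T * (starRingEnd ℂ) (β T) = Ideal.absNorm v.asIdeal ∧
        (Nat.card {P : (𝓞 K ⧸ v.asIdeal) × (𝓞 K ⧸ v.asIdeal) //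
          P.2 ^ 2 + Ideal.Quotient.mk v.asIdeal (D T) * P.2 = P.1 ^ 3} : ℂ) =
            Ideal.absNorm v.asIdeal - (β T + (starRingEnd ℂ) (β T))) ∧
      A v = ∑ T ∈ ((Finset.univ : Finset (Fin (2 * c + 3))).powersetCard c).filter
          (fun T => D T ∉ v.asIdeal),
        ({(Ideal.absNorm v.asIdeal : ℂ) ^ c * β T,
          (Ideal.absNorm v.asIdeal : ℂ) ^ c * (starRingEnd ℂ) (β T)} : Multiset ℂ)) ∧
    (∀ v, (3 : 𝓞 K) ∈ v.asIdeal → A v = 0) ∧
    ∀ s : ℂ, (2 * c + 1 : ℝ) / 2 + 1 < s.re →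
      HasProd (fun v : HeightOneSpectrum (𝓞 K) => ((A v).map
        (fun α => (1 - α * (Ideal.absNorm v.asIdeal : ℂ) ^ (-s))⁻¹)).prod) (L s)

/-- `E_{D T}(K)` is finite for all the sets `T` of `c` indices, and `L(H^N(X), s)` is entire and not zero at
`s = (N + 1) / 2 = c + 1`. -/
def RankZero {c : ℕ} (a : Fin (2 * c + 3) → 𝓞 K) (D : Finset (Fin (2 * c + 3)) → 𝓞 K) : Prop :=
  (∀ T : Finset (Fin (2 * c + 3)), T.card = c → Finite (curve (D T : K)).toAffine.Point) ∧
  ∃ L : ℂ → ℂ, IsLFunction a D L ∧ L (c + 1) ≠ 0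

section proof

open Pool.Agent.U687.KT
open Pool.Agent.Y692.QS (Ei w nr)
open Pool.Agent.Y715.T.Rec (cs)
open Pool.Agent.Y715.T.RecG (Pq)
open Pool.Agent.Y696.CTK (Tri ED)
open Pool.Agent.N883.DQ (Dt)
open Pool.Agent.Results.MP_787500_nt.PrimeTwistsOfDiagonalCubics (wq_ne)

/-- `δ_T(q)` is `D_T(q)` times a cube -/
theorem delta_dr {n c : ℕ} (ω : 𝓞 K) (π : Fin n → 𝓞 K)
    (u : Fin (2 * c + 3) → ZMod 3) (b : Fin (2 * c + 3) → Fin n → ZMod 3) (i₀ : Fin (2 * c + 3))
    (f : ZMod 3) (q : 𝓞 K) (T : Finset (Fin (2 * c + 3))) :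
    DR (Dt (coefficient ω π u b i₀ f q) T) (representative ω π u b i₀ f q T) := by
  have h1 := mon_wt_dr (R := 𝓞 K) ω (Fin.cons q π : Fin (n + 1) → 𝓞 K) T u
    (fun l => (Fin.cons (if l = i₀ then f else 0) (b l) : Fin (n + 1) → ZMod 3))
    (x := coefficient ω π u b i₀ f q) (fun l => by
      rw [mon_cons]
      unfold coefficient monomial mon
      split_ifs
      · rfl
      · rw [ZMod.val_zero, pow_zero])
  rw [wt_cons, mon_cons] at h1
  exact h1

/-- the data for the `L`-function -/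
theorem exists_L (K : Type) [Field K] [NumberField K] [IsCyclotomicExtension {3} ℚ K] {n c : ℕ}
    (hc : c ≤ 2) (j : Ei ≃+* 𝓞 K)
    (hj : ∀ z : Ei, Algebra.norm ℤ (j z) = nr z) {π : Fin n → 𝓞 K} {χ : Fin n → Fin n → ZMod 3}
    {η : Fin n → ZMod 3} (h : IsSys (j w) n π χ η) {u : Fin (2 * c + 3) → ZMod 3}
    {b : Fin (2 * c + 3) → Fin n → ZMod 3} {i₀ : Fin (2 * c + 3)} {f a : ZMod 3} (hf : f ≠ 0)
    (ha : NotExceptional η u b i₀ f a) {z : Ei} (hz : Pq z) (hne : ∀ k, j.symm (π k) ≠ z)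
    (haz : cs z w = a) :
    ∃ L : ℂ → ℂ, IsLFunction (coefficient (j w) π u b i₀ f (j z))
        (representative (j w) π u b i₀ f (j z)) L ∧
      ((∀ T : Finset (Fin (2 * c + 3)), T.card = c →
        FiniteAndTrivial (representative (j w) π u b i₀ f (j z) T)) → L (c + 1) ≠ 0) := by
  have htw : ∀ T : Finset (Fin (2 * c + 3)), T.card = c →
      Pool.Agent.Results.MP_e996df_nt.MajorityThreePart.Law
        (representative (j w) π u b i₀ f (j z) T) := by
    intro T hT
    obtain ⟨h1, h2, -⟩ := twist2 j hj h (wq_ne i₀ hf T) (ha T hT) hz hne haz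
    exact (((Pool.Agent.Results.MP_e996df_nt.MajorityThreePart.result K).2.1 _ h1 h2).1)
  have hL : ∀ T : Finset (Fin (2 * c + 3)), ∃ Lf : ℂ → ℂ, T.card = c →
      Differentiable ℂ Lf ∧
      (∀ s : ℂ, 3 / 2 < s.re → Lf s = (ED (representative (j w) π u b i₀ f (j z) T : K)).LSeries s) ∧
      (FiniteAndTrivial (representative (j w) π u b i₀ f (j z) T) → Lf 1 ≠ 0) := by
    intro T
    by_cases hT : T.card = c
    · obtain ⟨-, -, Lf, -, h1, h2, h3, -⟩ := htw T hT
      exact ⟨Lf, fun _ => ⟨h1, fun s hs => (h2 s hs).2, h3⟩⟩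
    · exact ⟨0, fun h => absurd h hT⟩
  choose L hL using hL
  -- the primes
  obtain ⟨hp, hnd, -, -⟩ := sys_data j hj h
  set P : Fin (n + 1) → Ei := Fin.cons z (fun k => j.symm (π k)) with hPd
  have hP : ∀ k, Pq (P k) := fun k => Fin.cases hz (fun k => hp k) k
  have hPne : ∀ k l, k ≠ l → ¬ P l ∣ P k := by
    intro k l
    refine Fin.cases ?_ (fun k => ?_) k
    · refine Fin.cases (fun h => absurd rfl h) (fun l _ hd => ?_) l
      exact hne l (eq_of_dvd (hp l) hz hd)
    · refine Fin.cases (fun _ hd => ?_) (fun l h => ?_) l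
      · exact hne k (eq_of_dvd hz (hp k) hd).symm
      · exact hnd k l (fun h' => h (congrArg Fin.succ h'))
  have e1 : ∀ (i : ZMod 3) (e : Fin n → ZMod 3) (g : ZMod 3), mon (j w) π i e * (j z) ^ g.val =
      j (mon w P i (Fin.cons g e : Fin (n + 1) → ZMod 3)) := by
    intro i e g
    rw [mon_map, ← mon_cons]
    congr 1
    funext k
    refine Fin.cases rfl (fun k => ?_) k
    show π k = j (j.symm (π k))
    rw [RingEquiv.apply_symm_apply]
  have hdg : DG (coefficient (j w) π u b i₀ f (j z)) (representative (j w) π u b i₀ f (j z)) L := by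
    refine ⟨fun T => delta_dr _ _ _ _ _ _ _ _, fun T hT v hv => ?_, fun T hT => (hL T hT).1,
      fun T hT => (hL T hT).2.1⟩
    have e2 : representative (j w) π u b i₀ f (j z) T =
        j (mon w P (weight u T) (Fin.cons (weightQ i₀ f T) (weight b T) : Fin (n + 1) → ZMod 3)) :=
      e1 _ _ _
    rw [e2] at hv ⊢
    exact bad_mon j hP hPne v hv
  refine ⟨_, gen_G hdg hc, fun hT => ?_⟩
  show ∏ T ∈ Pool.Agent.N883.FG.SS c, L T ((c : ℂ) + 1 - c) ≠ 0
  rw [add_sub_cancel_left]
  refine Finset.prod_ne_zero_iff.2 fun T hT' => ?_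
  have hTc : T.card = c := (Finset.mem_powersetCard.1 hT').2
  exact (hL T hTc).2.2 (hT T hTc)

end proof

open Pool.Agent.U687.KT in
/-- **The Beilinson–Bloch conjecture for the prime twists of all the diagonal cubics (rank zero).** -/
theorem result (K : Type) [Field K] [NumberField K] [IsCyclotomicExtension {3} ℚ K] :
    ∀ (ω : 𝓞 K) (n : ℕ) (π : Fin n → 𝓞 K) (χ : Fin n → Fin n → ZMod 3) (η : Fin n → ZMod 3),
      ω ^ 2 + ω + 1 = 0 → IsSystem ω n π χ η → ∀ c : ℕ, c ≤ 2 →
      ∀ (u : Fin (2 * c + 3) → ZMod 3) (b : Fin (2 * c + 3) → Fin n → ZMod 3)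
        (i₀ : Fin (2 * c + 3)) (f : ZMod 3), f ≠ 0 →
      (∀ a : ZMod 3, NotExceptional η u b i₀ f a →
        (∀ (X : ℕ) (q : 𝓞 K), q ∈ Primes K a X → (∀ k, ¬ π k ∣ q) →
          ∃ L : ℂ → ℂ, IsLFunction (coefficient ω π u b i₀ f q) (representative ω π u b i₀ f q) L ∧
            ((∀ T : Finset (Fin (2 * c + 3)), T.card = c →
              FiniteAndTrivial (representative ω π u b i₀ f q T)) → L (c + 1) ≠ 0)) ∧
        Tendsto (fun X : ℕ =>
          ({q : 𝓞 K | q ∈ Primes K a X ∧
            (∀ T : Finset (Fin (2 * c + 3)), T.card = c →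
              FiniteAndTrivial (representative ω π u b i₀ f q T)) ∧
            RankZero (coefficient ω π u b i₀ f q) (representative ω π u b i₀ f q)}.ncard : ℝ) /
              ((Primes K a X).ncard : ℝ)) atTop
          (𝓝 ((Nat.card {x : Fin n → ZMod 3 // AllConnected χ η u b i₀ f a x} : ℝ) / 3 ^ n))) ∧
      (c = 0 → ∀ a : ZMod 3, ∑ k, (∑ l, b l) k * η k + f * a ≠ 0 →
        NotExceptional η u b i₀ f a ∧ (2 / 3 : ℝ) ^ n ≤
          (Nat.card {x : Fin n → ZMod 3 // AllConnected χ η u b i₀ f a x} : ℝ) / 3 ^ n) ∧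
      (∀ i₁ : Fin (2 * c + 3), i₀ ≠ i₁ → (∀ l, l ≠ i₀ → l ≠ i₁ → u l = 0 ∧ b l = 0) →
        ∃ a : ZMod 3, NotExceptional η u b i₀ f a ∧ (1 / 3 : ℝ) ^ n ≤
          (Nat.card {x : Fin n → ZMod 3 // AllConnected χ η u b i₀ f a x} : ℝ) / 3 ^ n) := by
  intro ω n π χ η hω hsys c hc u b i₀ f hf
  obtain ⟨-, -, k3, k4⟩ := Pool.Agent.Results.MP_787500_nt.PrimeTwistsOfDiagonalCubics.result K ω n π χ η
    hω hsys c hc u b i₀ f hf
  refine ⟨fun a ha => ?_, k3, k4⟩
  obtain ⟨⟨j, hj⟩, -⟩ := Pool.Agent.Y455.CTK.jex K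
  obtain ⟨j, hj, rfl⟩ := exists_j j hj hω
  have hsys' : IsSys (j Pool.Agent.Y692.QS.w) n π χ η := hsys
  refine ⟨fun X q hq hne => ?_, ?_⟩
  · obtain ⟨h1, h2, -, h4⟩ := hq
    obtain ⟨z, rfl⟩ := j.surjective q
    have hz : Pool.Agent.Y715.T.RecG.Pq z := by
      have := Pool.Agent.Y696.CTK.pq_symm j h1 h2
      rwa [RingEquiv.symm_apply_apply] at this
    refine exists_L K hc j hj hsys' hf ha hz (fun k hk => hne k ?_) ?_
    · rw [← hk, RingEquiv.apply_symm_apply]
    · refine (norm_class hz a).1 ?_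
      rw [← hj]
      exact h4
  · refine law_K j hj hsys' a (AllConnected χ η u b i₀ f a)
      (fun q => (∀ T : Finset (Fin (2 * c + 3)), T.card = c →
            FiniteAndTrivial (representative (j Pool.Agent.Y692.QS.w) π u b i₀ f q T)) ∧
            RankZero (coefficient (j Pool.Agent.Y692.QS.w) π u b i₀ f q)
              (representative (j Pool.Agent.Y692.QS.w) π u b i₀ f q)) ?_
    intro z hz hne haz
    have e1 : (∀ T : Finset (Fin (2 * c + 3)), T.card = c →
            FiniteAndTrivial (representative (j Pool.Agent.Y692.QS.w) π u b i₀ f (j z) T)) ↔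
        AllConnected χ η u b i₀ f a (fun k => Pool.Agent.Y715.T.Rec.cs z (j.symm (π k))) := by
      refine forall₂_congr fun T hT => ?_
      exact (twist2 j hj hsys' (Pool.Agent.Results.MP_787500_nt.PrimeTwistsOfDiagonalCubics.wq_ne i₀ hf T)
        (ha T hT) hz hne haz).2.2
    rw [← e1]
    refine ⟨fun h => h.1, fun h => ⟨h, fun T hT => (h T hT).1, ?_⟩⟩
    obtain ⟨L, h1, h2⟩ := exists_L K hc j hj hsys' hf ha hz hne haz
    exact ⟨L, h1, h2 h⟩

end Pool.Agent.Results.MP_b8021b_nt.PrimeTwistsOfDiagonalCubics
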